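import Mathlib

set_option autoImplicit false

namespace Pool.Agent.Results.MP_23f460_nt.SumsOfSquaresEuclidean

/-- The Hasse domain `R = R_S` in `K = ℚ` for `S = T ∪ {∞}`: the rational numbers `x` with
`|x|_p ≤ 1`, i.e. `v_p(x) ≥ 0`, for every prime `p` outside the finite set `T`. -/
def SInt (T : Finset ℕ) : Subring ℚ where
  carrier := {x | ∀ p : ℕ, p.Prime → p ∉ T → padicNorm p x ≤ 1}
  mul_mem' := by
    intro a b ha hb p hp hT
    have : Fact p.Prime := ⟨hp⟩
    rw [padicNorm.mul]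
    exact mul_le_one₀ (ha p hp hT) (padicNorm.nonneg b) (hb p hp hT)
  one_mem' := by
    intro p hp _
    have : Fact p.Prime := ⟨hp⟩
    rw [padicNorm.one]
  add_mem' := by
    intro a b ha hb p hp hT
    have : Fact p.Prime := ⟨hp⟩
    exact padicNorm.nonarchimedean.trans (max_le (ha p hp hT) (hb p hp hT))
  zero_mem' := by
    intro p hp _
    have : Fact p.Prime := ⟨hp⟩
    rw [padicNorm.zero]
    exact zero_le_one
  neg_mem' := by
    intro a ha p hp hT
    have : Fact p.Prime := ⟨hp⟩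
    rw [padicNorm.neg]
    exact ha p hp hT

/-- The canonical norm on `R`: `|x| = #(R / x R)` for `x ≠ 0`, and `|0| = 0`. -/
noncomputable def nrm {R : Subring ℚ} (x : R) : ℕ :=
  open Classical in if x = 0 then 0 else Nat.card (R ⧸ Ideal.span {x})

/-- A quadratic form over `R`: the number `n` of variables and the coefficients `a i j` of
`q (x) = ∑ a i j * x i * x j`. -/
structure Form (R : Subring ℚ) where
  n : ℕ
  coeff : Matrix (Fin n) (Fin n) R

namespace Form

variable {R : Subring ℚ}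

/-- The value of the form at a vector of `K ^ n`, `K = ℚ`. -/
def eval (q : Form R) (x : Fin q.n → ℚ) : ℚ :=
  ∑ i, ∑ j, (q.coeff i j : ℚ) * x i * x j

/-- Nondegenerate: the associated symmetric bilinear form has nonzero determinant. -/
def Nondegenerate (q : Form R) : Prop := (q.coeff + q.coeff.transpose).det ≠ 0

/-- Anisotropic over `K`. -/
def Anisotropic (q : Form R) : Prop := ∀ x : Fin q.n → ℚ, x ≠ 0 → q.eval x ≠ 0

/-- Euclidean: for every `x` in `K ^ n`, not in `R ^ n`, there is `y` in `R ^ n` with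
`0 < |q (x - y)| < 1`: `q (x - y) = a / b` with nonzero `a, b` in `R` and `|a| < |b|`. -/
def Euclidean (q : Form R) : Prop :=
  ∀ x : Fin q.n → ℚ, (¬ ∀ i, x i ∈ R) → ∃ y : Fin q.n → R, ∃ a b : R, a ≠ 0 ∧ b ≠ 0 ∧
    q.eval (fun i => x i - (y i : ℚ)) = (a : ℚ) / (b : ℚ) ∧ nrm a < nrm b

/-- Isomorphic forms: they have the same number of variables and `q' (x) = q (A x)` for some `A`
in `GL_n(R)`. -/
def Isomorphic (q q' : Form R) : Prop :=
  ∃ (h : q'.n = q.n) (A : GL (Fin q.n) R), ∀ x : Fin q.n → ℚ,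
    q'.eval (fun i => x (Fin.cast h i)) =
      q.eval (((A : Matrix (Fin q.n) (Fin q.n) R).map (fun r : R => (r : ℚ))).mulVec x)

end Form

/-- The form `x_1 ^ 2 + ... + x_n ^ 2`. -/
def sumSq (R : Subring ℚ) (n : ℕ) : Form R := ⟨n, 1⟩

/-! ### The combinatorial lemma -/

/-- Adding a unit: `|A ∪ (A + d)| ≥ min (|A| + 1, M)`. -/
theorem card_union_add {M : ℕ} [NeZero M] (A : Finset (ZMod M)) (hA : A.Nonempty) (d : ZMod M)
    (hd : IsUnit d) : min (A.card + 1) M ≤ (A ∪ A.image (fun a => a + d)).card := by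
  by_cases h : A.image (fun a => a + d) ⊆ A
  · have heq : A.image (fun a => a + d) = A :=
      Finset.eq_of_subset_of_card_le h (by
        rw [Finset.card_image_of_injective _ (add_left_injective d)])
    have hcl : ∀ a ∈ A, a + d ∈ A := fun a ha => h (Finset.mem_image_of_mem _ ha)
    obtain ⟨a₀, ha₀⟩ := hA
    have hk : ∀ k : ℕ, a₀ + k * d ∈ A := by
      intro k
      induction k with
      | zero => simpa using ha₀
      | succ k ih =>
        have := hcl _ ih
        push_cast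
        convert this using 1
        ring
    have hall : A = Finset.univ := by
      rw [Finset.eq_univ_iff_forall]
      intro x
      obtain ⟨u, hu⟩ := hd
      have h1 := hk ((x - a₀) * (u⁻¹ : (ZMod M)ˣ)).val
      rw [ZMod.natCast_zmod_val, ← hu, mul_assoc, Units.inv_mul, mul_one] at h1
      simpa using h1
    rw [hall, Finset.union_eq_left.mpr (Finset.subset_univ _), Finset.card_univ, ZMod.card]
    exact min_le_right _ _
  · rw [Finset.not_subset] at h
    obtain ⟨x, hx, hxA⟩ := h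
    refine (min_le_left _ _).trans ?_
    rw [← Finset.card_insert_of_notMem hxA]
    apply Finset.card_le_card
    intro y hy
    rw [Finset.mem_insert] at hy
    rw [Finset.mem_union]
    rcases hy with rfl | hy
    · exact Or.inr hx
    · exact Or.inl hy

/-- The set of sums `∑ c i` with `c i ∈ {b i, b i + d i}`. -/
theorem card_sums {M : ℕ} [NeZero M] {ι : Type} [DecidableEq ι] (d b : ι → ZMod M)
    (hd : ∀ i, IsUnit (d i)) (s : Finset ι) :
    ∃ A : Finset (ZMod M), min (s.card + 1) M ≤ A.card ∧ ∀ a ∈ A, ∃ t : ι → Bool,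
      a = ∑ i ∈ s, (b i + if t i then d i else 0) := by
  induction s using Finset.induction_on with
  | empty =>
    refine ⟨{0}, by simp, ?_⟩
    intro a ha
    exact ⟨fun _ => false, by simpa using ha⟩
  | insert i s hi ih =>
    obtain ⟨A, hA, hA'⟩ := ih
    have hne : A.Nonempty := by
      rw [← Finset.card_pos]
      have : 0 < min (s.card + 1) M := lt_min (Nat.succ_pos _) (Nat.pos_of_ne_zero (NeZero.ne M))
      omega
    have h1 := card_union_add A hne (d i) (hd i)
    refine ⟨(A ∪ A.image (fun a => a + d i)).image (fun a => a + b i), ?_, ?_⟩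
    · rw [Finset.card_image_of_injective _ (add_left_injective (b i)),
        Finset.card_insert_of_notMem hi]
      refine le_trans ?_ h1
      rcases le_total (s.card + 1) M with h2 | h2
      · rw [min_eq_left h2] at hA
        exact min_le_min_right _ (by omega)
      · rw [min_eq_right h2] at hA
        rw [min_eq_right (by omega : M ≤ s.card + 1 + 1), min_eq_right (by omega)]
    · intro a ha
      rw [Finset.mem_image] at ha
      obtain ⟨x, hx, rfl⟩ := ha
      rw [Finset.mem_union, Finset.mem_image] at hx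
      rcases hx with hx | ⟨y, hy, rfl⟩
      · obtain ⟨t, ht⟩ := hA' x hx
        refine ⟨Function.update t i false, ?_⟩
        rw [Finset.sum_insert hi, ht]
        simp only [Function.update_self, Bool.false_eq_true, if_false, add_zero]
        rw [add_comm]
        congr 1
        apply Finset.sum_congr rfl
        intro j hj
        rw [Function.update_of_ne (by rintro rfl; exact hi hj)]
      · obtain ⟨t, ht⟩ := hA' y hy
        refine ⟨Function.update t i true, ?_⟩
        rw [Finset.sum_insert hi, ht]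
        simp only [Function.update_self, if_true]
        have : ∑ j ∈ s, (b j + if t j then d j else 0) =
            ∑ j ∈ s, (b j + if Function.update t i true j then d j else 0) := by
          apply Finset.sum_congr rfl
          intro j hj
          rw [Function.update_of_ne (by rintro rfl; exact hi hj)]
        rw [← this]
        ring

/-- The representatives: for odd `N` and `n = 2 ^ j - 1` integers `a i` there are integers
`v i ≡ a i (mod N)` with `|v i| ≤ N` and `∑ (v i) ^ 2` divisible by `2 ^ j`. -/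
theorem reps (j : ℕ) (N : ℕ) (hN : Odd N) (a : Fin (2 ^ j - 1) → ℤ) :
    ∃ v : Fin (2 ^ j - 1) → ℤ, (∀ i, (N : ℤ) ∣ v i - a i) ∧ (∀ i, |v i| ≤ N) ∧
      (2 : ℤ) ^ j ∣ ∑ i, (v i) ^ 2 := by
  have hNpos : 0 < N := hN.pos
  have : NeZero (2 ^ j) := ⟨by positivity⟩
  -- the two representatives `r = a mod N` and `r - N`
  let r : Fin (2 ^ j - 1) → ℤ := fun i => a i % N
  have hr0 : ∀ i, 0 ≤ r i := fun i => Int.emod_nonneg _ (by exact_mod_cast hNpos.ne')
  have hrN : ∀ i, r i < N := fun i => Int.emod_lt_of_pos _ (by exact_mod_cast hNpos)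
  have hra : ∀ i, (N : ℤ) ∣ r i - a i := fun i => ⟨-(a i / N), by
    have h := Int.emod_def (a i) N
    simp only [r]
    rw [h]
    ring⟩
  let D : Fin (2 ^ j - 1) → ℤ := fun i => (r i - N) ^ 2 - (r i) ^ 2
  have hD : ∀ i, IsUnit ((D i : ℤ) : ZMod (2 ^ j)) := by
    intro i
    have hodd : Odd (D i) := by
      have h1 : D i = (N : ℤ) * (N - 2 * r i) := by simp only [D]; ring
      rw [h1]
      have h2 : Odd (N : ℤ) := by exact_mod_cast hN
      exact h2.mul (h2.sub_even ⟨r i, by ring⟩)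
    have hcop : IsCoprime (D i) ((2 ^ j : ℕ) : ℤ) := by
      push_cast
      exact (Int.isCoprime_iff_gcd_eq_one.mpr (by
        have := Int.isCoprime_iff_gcd_eq_one.mp (Int.isCoprime_two_right.mpr hodd)
        exact this)).pow_right
    exact (ZMod.coe_int_isUnit_iff_isCoprime _ _).mpr hcop.symm
  obtain ⟨A, hA, hA'⟩ := card_sums (fun i => ((D i : ℤ) : ZMod (2 ^ j)))
    (fun i => (((r i) ^ 2 : ℤ) : ZMod (2 ^ j))) hD Finset.univ
  have hcard : (Finset.univ : Finset (Fin (2 ^ j - 1))).card + 1 = 2 ^ j := by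
    rw [Finset.card_univ, Fintype.card_fin]
    have : 0 < 2 ^ j := by positivity
    omega
  rw [hcard, min_self] at hA
  have hAu : A = Finset.univ := by
    rw [← Finset.card_eq_iff_eq_univ, ZMod.card]
    refine le_antisymm ?_ hA
    exact (Finset.card_le_univ A).trans (by rw [ZMod.card])
  obtain ⟨t, ht⟩ := hA' 0 (by rw [hAu]; exact Finset.mem_univ _)
  refine ⟨fun i => if t i then r i - N else r i, ?_, ?_, ?_⟩
  · intro i
    by_cases h : t i
    · simp only [h, if_true]
      have : r i - N - a i = (r i - a i) - N := by ring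
      rw [this]
      exact dvd_sub (hra i) (dvd_refl _)
    · simp only [h, Bool.false_eq_true, if_false]
      exact hra i
  · intro i
    by_cases h : t i
    · simp only [h, if_true]
      rw [abs_le]
      constructor
      · linarith [hr0 i]
      · linarith [hrN i, hr0 i]
    · simp only [h, Bool.false_eq_true, if_false]
      rw [abs_le]
      constructor
      · linarith [hr0 i, hrN i]
      · linarith [hrN i]
  · have h1 : ((∑ i, (if t i then r i - N else r i) ^ 2 : ℤ) : ZMod (2 ^ j)) = 0 := by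
      rw [ht]
      push_cast
      apply Finset.sum_congr rfl
      intro i _
      by_cases h : t i
      · simp only [h, if_true, D]
        push_cast
        ring
      · simp only [h, Bool.false_eq_true, if_false, add_zero]
    rw [ZMod.intCast_zmod_eq_zero_iff_dvd] at h1
    exact_mod_cast h1

/-! ### The ring `R` -/

variable {T : Finset ℕ}

theorem mem_SInt {x : ℚ} :
    x ∈ SInt T ↔ ∀ p : ℕ, p.Prime → p ∉ T → padicNorm p x ≤ 1 := Iff.rfl

/-- `n` has no prime factor in `T`. -/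
def Free (T : Finset ℕ) (n : ℕ) : Prop := ∀ p : ℕ, p.Prime → p ∈ T → ¬ p ∣ n

/-- Every positive integer is the product of a unit of `R` and an integer without prime factors
in `T`. -/
theorem factor (n : ℕ) (hn : n ≠ 0) : ∃ M N : ℕ, n = M * N ∧ M ≠ 0 ∧ N ≠ 0 ∧
    ((M : ℚ)⁻¹ ∈ SInt T) ∧ Free T N := by
  induction n using induction_on_primes with
  | zero => exact absurd rfl hn
  | one =>
    refine ⟨1, 1, by norm_num, one_ne_zero, one_ne_zero, ?_, ?_⟩
    · rw [Nat.cast_one, inv_one]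
      exact (SInt T).one_mem
    · intro p hp _ h
      exact hp.one_lt.ne' (Nat.dvd_one.mp h)
  | prime_mul p a hp ih =>
    have ha : a ≠ 0 := by
      rintro rfl
      exact hn (mul_zero _)
    obtain ⟨M, N, h1, h2, h3, h4, h5⟩ := ih ha
    by_cases hT : p ∈ T
    · refine ⟨p * M, N, by rw [h1, mul_assoc], mul_ne_zero hp.ne_zero h2, h3, ?_, h5⟩
      rw [Nat.cast_mul, mul_inv]
      refine (SInt T).mul_mem ?_ h4
      intro q hq hqT
      have : Fact q.Prime := ⟨hq⟩
      have hpq : p ≠ q := by rintro rfl; exact hqT hT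
      have h6 : padicNorm q ((p : ℚ)⁻¹) = 1 := by
        have h7 : padicNorm q (p : ℚ) = 1 := by
          have : Fact p.Prime := ⟨hp⟩
          exact padicNorm.padicNorm_of_prime_of_ne (Ne.symm hpq)
        have h8 : padicNorm q ((p : ℚ)⁻¹) * padicNorm q (p : ℚ) = 1 := by
          rw [← padicNorm.mul, inv_mul_cancel₀ (by exact_mod_cast hp.ne_zero), padicNorm.one]
        rw [h7, mul_one] at h8
        exact h8
      rw [h6]
    · refine ⟨M, p * N, by rw [h1]; ring, h2, mul_ne_zero hp.ne_zero h3, h4, ?_⟩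
      intro q hq hqT hdvd
      rcases (Nat.Prime.dvd_mul hq).mp hdvd with h | h
      · rw [Nat.prime_dvd_prime_iff_eq hq hp] at h
        exact hT (h ▸ hqT)
      · exact h5 q hq hqT h

theorem ncast_mem (n : ℕ) : (n : ℚ) ∈ SInt T := natCast_mem (SInt T) n

theorem icast_mem (n : ℤ) : (n : ℚ) ∈ SInt T := intCast_mem (SInt T) n

theorem not_dvd_den {p : ℕ} (hp : p.Prime) {x : ℚ} (h : padicNorm p x ≤ 1) : ¬ p ∣ x.den := by
  have : Fact p.Prime := ⟨hp⟩
  intro hd
  have h1 : padicNorm p ((x.den : ℤ) : ℚ) < 1 :=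
    (padicNorm.int_lt_one_iff _).mpr (by exact_mod_cast hd)
  have h2 : padicNorm p ((x.num : ℤ) : ℚ) = 1 := by
    rw [padicNorm.int_eq_one_iff]
    intro hn
    have h3 := x.reduced
    have h4 : p ∣ x.num.natAbs := Int.natCast_dvd.mp hn
    exact hp.one_lt.ne' (Nat.dvd_one.mp (h3 ▸ Nat.dvd_gcd h4 hd))
  have h5 : (x : ℚ) * ((x.den : ℤ) : ℚ) = ((x.num : ℤ) : ℚ) := by
    exact_mod_cast Rat.mul_den_eq_num x
  have h6 : padicNorm p x * padicNorm p ((x.den : ℤ) : ℚ) = 1 := by
    rw [← padicNorm.mul, h5, h2]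
  have h7 : padicNorm p x * padicNorm p ((x.den : ℤ) : ℚ) < 1 := by
    calc padicNorm p x * padicNorm p ((x.den : ℤ) : ℚ)
        ≤ 1 * padicNorm p ((x.den : ℤ) : ℚ) :=
          mul_le_mul_of_nonneg_right h (padicNorm.nonneg _)
      _ < 1 := by rw [one_mul]; exact h1
  exact absurd h6 h7.ne

/-- An integer `m` without prime factors in `T` divides an integer `k` in `R` only if it does so
in the integers. -/
theorem dvd_of_mem {m : ℕ} (hm0 : m ≠ 0) (hm : Free T m) {k : ℤ} (h : (k : ℚ) / m ∈ SInt T) :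
    (m : ℤ) ∣ k := by
  by_cases hk : k = 0
  · rw [hk]; exact dvd_zero _
  have hden : ((k : ℚ) / m).den = 1 := by
    by_contra hne
    obtain ⟨p, hp, hpd⟩ := Nat.exists_prime_and_dvd hne
    have : Fact p.Prime := ⟨hp⟩
    have h1 : ((k : ℚ) / m).den ∣ m := by
      have h7 := Rat.den_dvd k m
      rw [Rat.divInt_eq_div] at h7
      exact_mod_cast h7
    by_cases hpT : p ∈ T
    · exact hm p hp hpT (hpd.trans h1)
    · exact not_dvd_den hp (h p hp hpT) hpd
  have h4 : ((k : ℚ) / m) = (((k : ℚ) / m).num : ℚ) := by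
    conv_lhs => rw [← Rat.num_div_den ((k : ℚ) / m)]
    rw [hden, Nat.cast_one, div_one]
  refine ⟨((k : ℚ) / m).num, ?_⟩
  have h5 : (k : ℚ) = m * (((k : ℚ) / m).num : ℚ) := by
    rw [← h4]
    field_simp
  exact_mod_cast h5

/-- The norm of an integer without prime factors in `T`. -/
theorem nrm_natCast {m : ℕ} (hm0 : m ≠ 0) (hm : Free T m) (r : SInt T) (hr : (r : ℚ) = m) :
    nrm r = m := by
  classical
  have hr0 : r ≠ 0 := by
    intro h
    rw [h] at hr
    exact hm0 (by exact_mod_cast hr.symm)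
  rw [nrm, if_neg hr0]
  have : NeZero m := ⟨hm0⟩
  let I : Ideal (SInt T) := Ideal.span {r}
  let f : ℤ →+* (SInt T ⧸ I) := (Ideal.Quotient.mk I).comp (Int.castRingHom (SInt T))
  have hker : RingHom.ker f = Ideal.span {(m : ℤ)} := by
    ext k
    rw [RingHom.mem_ker, Ideal.mem_span_singleton]
    change Ideal.Quotient.mk I ((k : ℤ) : SInt T) = 0 ↔ _
    rw [Ideal.Quotient.eq_zero_iff_mem, Ideal.mem_span_singleton]
    constructor
    · rintro ⟨c, hc⟩
      apply dvd_of_mem hm0 hm
      have h1 : ((k : ℤ) : ℚ) = m * (c : ℚ) := by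
        have := congrArg (fun z : SInt T => (z : ℚ)) hc
        push_cast at this
        rw [this, hr]
      rw [h1, mul_div_cancel_left₀ _ (by exact_mod_cast hm0)]
      exact c.2
    · rintro ⟨c, hc⟩
      refine ⟨((c : ℤ) : SInt T), ?_⟩
      apply Subtype.ext
      push_cast
      rw [hr, hc]
      push_cast
      rfl
  have hsurj : Function.Surjective f := by
    intro y
    obtain ⟨x, rfl⟩ := Ideal.Quotient.mk_surjective y
    -- `x = k / s` with `s` coprime to `m`
    have hcop : IsCoprime (((x : ℚ).den : ℕ) : ℤ) (m : ℤ) := by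
      rw [Nat.isCoprime_iff_coprime]
      apply Nat.Coprime.symm
      rw [Nat.coprime_iff_gcd_eq_one]
      by_contra hne
      obtain ⟨p, hp, hpd⟩ := Nat.exists_prime_and_dvd hne
      have : Fact p.Prime := ⟨hp⟩
      have h1 := hpd.trans (Nat.gcd_dvd_left _ _)
      have h2 := hpd.trans (Nat.gcd_dvd_right _ _)
      by_cases hpT : p ∈ T
      · exact hm p hp hpT h1
      · exact not_dvd_den hp (x.2 p hp hpT) h2
    obtain ⟨u, v, huv⟩ := hcop
    refine ⟨(x : ℚ).num * u, ?_⟩
    change Ideal.Quotient.mk I ((((x : ℚ).num * u : ℤ)) : SInt T) = _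
    rw [Ideal.Quotient.eq, Ideal.mem_span_singleton]
    refine ⟨-(x * (v : SInt T)), ?_⟩
    apply Subtype.ext
    push_cast
    rw [hr]
    have h3 : ((x : ℚ).num : ℚ) = (x : ℚ) * ((x : ℚ).den : ℚ) := (Rat.mul_den_eq_num _).symm
    have h4 : (u : ℚ) * ((x : ℚ).den : ℚ) + v * m = 1 := by exact_mod_cast huv
    rw [h3]
    linear_combination (x : ℚ) * h4
  have e := RingHom.quotientKerEquivOfSurjective hsurj
  rw [← Nat.card_congr e.toEquiv, hker]
  rw [Nat.card_congr (Int.quotientSpanNatEquivZMod m).toEquiv, Nat.card_zmod]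

/-- The norm does not change when the element is multiplied by a unit. -/
theorem nrm_mul_unit {R : Subring ℚ} (x u w : R) (h : u * w = 1) : nrm (x * u) = nrm x := by
  classical
  have hu : IsUnit u := IsUnit.of_mul_eq_one w h
  have hu0 : u ≠ 0 := hu.ne_zero
  by_cases hx : x = 0
  · rw [hx, zero_mul]
  · rw [nrm, nrm, if_neg hx, if_neg (mul_ne_zero hx hu0), Ideal.span_singleton_mul_right_unit hu]

/-! ### The forms -/

theorem eval_sumSq (R : Subring ℚ) (n : ℕ) (x : Fin n → ℚ) :
    (sumSq R n).eval x = ∑ i, x i ^ 2 := by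
  change ∑ i : Fin n, ∑ j : Fin n, (((1 : Matrix (Fin n) (Fin n) R) i j : R) : ℚ) * x i * x j = _
  apply Finset.sum_congr rfl
  intro i _
  rw [Finset.sum_eq_single i]
  · rw [Matrix.one_apply_eq]
    push_cast
    ring
  · intro j _ hj
    rw [Matrix.one_apply_ne (Ne.symm hj)]
    push_cast
    ring
  · intro h
    exact absurd (Finset.mem_univ _) h

theorem sum_sq_eq_zero {n : ℕ} (x : Fin n → ℚ) (h : ∑ i, x i ^ 2 = 0) : x = 0 := by
  rw [Finset.sum_eq_zero_iff_of_nonneg (fun i _ => sq_nonneg _)] at h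
  funext i
  exact pow_eq_zero_iff (two_ne_zero) |>.mp (h i (Finset.mem_univ _))

theorem anisotropic_sumSq (R : Subring ℚ) (n : ℕ) : (sumSq R n).Anisotropic := by
  intro x hx h
  exact hx (sum_sq_eq_zero x ((eval_sumSq R n x).symm.trans h))

theorem nondegenerate_sumSq (R : Subring ℚ) (n : ℕ) : (sumSq R n).Nondegenerate := by
  change ((1 : Matrix (Fin n) (Fin n) R) + (1 : Matrix (Fin n) (Fin n) R).transpose).det ≠ 0
  rw [Matrix.transpose_one, ← two_smul R (1 : Matrix (Fin n) (Fin n) R), Matrix.det_smul,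
    Matrix.det_one, mul_one]
  exact pow_ne_zero _ (by
    intro h
    have := congrArg (fun z : R => (z : ℚ)) h
    push_cast at this
    norm_num at this)

/-- **The main point**: `x_1 ^ 2 + ... + x_n ^ 2` with `n = 2 ^ j - 1` is Euclidean over `R`. -/
theorem euclidean_sumSq (hT : 2 ∈ T) (j : ℕ) : (sumSq (SInt T) (2 ^ j - 1)).Euclidean := by
  intro x hx
  change Fin (2 ^ j - 1) → ℚ at x
  -- a common denominator
  let D : ℕ := ∏ i, (x i).den
  have hD : D ≠ 0 := Finset.prod_ne_zero_iff.mpr (fun i _ => (x i).den_nz)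
  obtain ⟨M, N, hMN, hM0, hN0, hM, hN⟩ := factor (T := T) D hD
  have hDx : ∀ i, ∃ a : ℤ, x i = a / (M * N) := by
    intro i
    obtain ⟨c, hc⟩ := Finset.dvd_prod_of_mem (fun i => (x i).den) (Finset.mem_univ i)
    refine ⟨(x i).num * c, ?_⟩
    have h1 : ((M : ℚ) * N) = (x i).den * c := by
      have : (D : ℚ) = (x i).den * c := by exact_mod_cast hc
      rw [← this, hMN]
      push_cast
      rfl
    have hc0 : (c : ℚ) ≠ 0 := by
      intro h
      have h2 : c = 0 := by exact_mod_cast h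
      exact hD (by change D = _ at hc; rw [hc, h2, mul_zero])
    rw [h1]
    push_cast
    rw [mul_div_mul_right _ _ hc0, Rat.num_div_den]
  choose a ha using hDx
  have hNodd : Odd N := by
    rw [← Nat.not_even_iff_odd, even_iff_two_dvd]
    exact hN 2 Nat.prime_two hT
  obtain ⟨v, hv1, hv2, hv3⟩ := reps j N hNodd a
  choose w hw using hv1
  have hMq : (M : ℚ) ≠ 0 := by exact_mod_cast hM0
  have hNq : (N : ℚ) ≠ 0 := by exact_mod_cast hN0
  -- the point of `R ^ n`
  have hy : ∀ i, -((w i : ℚ) * (M : ℚ)⁻¹) ∈ SInt T := fun i =>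
    (SInt T).neg_mem ((SInt T).mul_mem (icast_mem _) hM)
  have hz : ∀ i, x i - -((w i : ℚ) * (M : ℚ)⁻¹) = v i / (M * N) := by
    intro i
    have h1 : (v i : ℚ) - a i = N * w i := by exact_mod_cast hw i
    rw [ha i]
    field_simp
    linear_combination -h1
  let c : ℕ := (∑ i, (v i) ^ 2).toNat
  have hc : ((c : ℕ) : ℤ) = ∑ i, (v i) ^ 2 :=
    Int.toNat_of_nonneg (Finset.sum_nonneg (fun i _ => sq_nonneg _))
  have hc0 : c ≠ 0 := by
    intro h
    have h1 : ∑ i, (v i) ^ 2 = 0 := by rw [← hc, h]; rfl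
    rw [Finset.sum_eq_zero_iff_of_nonneg (fun i _ => sq_nonneg _)] at h1
    apply hx
    intro i
    have h2 : v i = 0 := pow_eq_zero_iff (two_ne_zero) |>.mp (h1 i (Finset.mem_univ _))
    have h3 := hz i
    rw [h2, Int.cast_zero, zero_div] at h3
    have h4 : x i = -((w i : ℚ) * (M : ℚ)⁻¹) := by linarith
    have h5 := hy i
    rw [← h4] at h5
    exact h5
  obtain ⟨M', m, hMm, hM'0, hm0, hM', hm⟩ := factor (T := T) c hc0
  have hM'q : (M' : ℚ) ≠ 0 := by exact_mod_cast hM'0
  have hmq : (m : ℚ) ≠ 0 := by exact_mod_cast hm0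
  -- the power of two
  have h2c : 2 ^ j ∣ c := by
    have : ((2 ^ j : ℕ) : ℤ) ∣ ((c : ℕ) : ℤ) := by
      rw [hc]
      push_cast
      exact hv3
    exact_mod_cast this
  have h2M : 2 ^ j ∣ M' := by
    have hodd : ¬ 2 ∣ m := hm 2 Nat.prime_two hT
    have hcop : Nat.Coprime (2 ^ j) m :=
      Nat.Coprime.pow_left _ ((Nat.Prime.coprime_iff_not_dvd Nat.prime_two).mpr hodd)
    rw [hMm] at h2c
    exact hcop.dvd_of_dvd_mul_right h2c
  have hMle : 2 ^ j ≤ M' := Nat.le_of_dvd (Nat.pos_of_ne_zero hM'0) h2M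
  -- the size
  have hcle : c ≤ (2 ^ j - 1) * N ^ 2 := by
    have h1 : ((c : ℕ) : ℤ) ≤ (((2 ^ j - 1) * N ^ 2 : ℕ) : ℤ) := by
      rw [hc]
      calc ∑ i, (v i) ^ 2 ≤ ∑ _i : Fin (2 ^ j - 1), (N : ℤ) ^ 2 := by
            apply Finset.sum_le_sum
            intro i _
            rw [← sq_abs]
            exact pow_le_pow_left₀ (abs_nonneg _) (hv2 i) 2
        _ = _ := by
            rw [Finset.sum_const, Finset.card_univ, Fintype.card_fin, nsmul_eq_mul]
            push_cast
            rfl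
    exact_mod_cast h1
  have hlt : m < N ^ 2 := by
    have hNpos : 0 < N ^ 2 := by positivity
    have h1 : 2 ^ j * m ≤ (2 ^ j - 1) * N ^ 2 :=
      (Nat.mul_le_mul_right m hMle).trans (hMm ▸ hcle)
    have h2 : (2 ^ j - 1) * N ^ 2 < 2 ^ j * N ^ 2 :=
      Nat.mul_lt_mul_of_pos_right (Nat.sub_lt (by positivity) one_pos) hNpos
    exact Nat.lt_of_mul_lt_mul_left (h1.trans_lt h2)
  -- the fraction
  have hMM : (M' : ℚ) * ((M : ℚ)⁻¹ * (M : ℚ)⁻¹) ∈ SInt T :=
    (SInt T).mul_mem (ncast_mem _) ((SInt T).mul_mem hM hM)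
  have hMM' : ((M : ℚ) * M) * (M' : ℚ)⁻¹ ∈ SInt T :=
    (SInt T).mul_mem ((SInt T).mul_mem (ncast_mem _) (ncast_mem _)) hM'
  let u : SInt T := ⟨((M : ℚ) * M) * (M' : ℚ)⁻¹, hMM'⟩
  let u' : SInt T := ⟨(M' : ℚ) * ((M : ℚ)⁻¹ * (M : ℚ)⁻¹), hMM⟩
  have huu : u * u' = 1 := by
    apply Subtype.ext
    change ((M : ℚ) * M) * (M' : ℚ)⁻¹ * ((M' : ℚ) * ((M : ℚ)⁻¹ * (M : ℚ)⁻¹)) = 1
    field_simp
  let A : SInt T := ⟨(m : ℚ), ncast_mem m⟩
  let B : SInt T := ⟨((N ^ 2 : ℕ) : ℚ), ncast_mem (N ^ 2)⟩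
  have hNfree : Free T (N ^ 2) := by
    intro p hp hpT h
    exact hN p hp hpT (hp.dvd_of_dvd_pow h)
  have hA : nrm A = m := nrm_natCast hm0 hm A rfl
  have hB : nrm B = N ^ 2 := nrm_natCast (pow_ne_zero 2 hN0) hNfree B rfl
  refine ⟨fun i => ⟨-((w i : ℚ) * (M : ℚ)⁻¹), hy i⟩, A, B * u, ?_, ?_, ?_, ?_⟩
  · intro h
    have := congrArg (fun z : SInt T => (z : ℚ)) h
    exact hmq this
  · intro h
    have h1 := congrArg (fun z : SInt T => (z : ℚ)) h
    change ((N ^ 2 : ℕ) : ℚ) * (((M : ℚ) * M) * (M' : ℚ)⁻¹) = 0 at h1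
    push_cast at h1
    have h2 : (N : ℚ) ^ 2 * (((M : ℚ) * M) * (M' : ℚ)⁻¹) ≠ 0 := by positivity
    exact h2 h1
  · refine (eval_sumSq (SInt T) (2 ^ j - 1) _).trans ?_
    change ∑ i, (x i - -((w i : ℚ) * (M : ℚ)⁻¹)) ^ 2 =
      (m : ℚ) / (((N ^ 2 : ℕ) : ℚ) * (((M : ℚ) * M) * (M' : ℚ)⁻¹))
    have h1 : ∑ i, (x i - -((w i : ℚ) * (M : ℚ)⁻¹)) ^ 2 = (c : ℚ) / (M * N) ^ 2 := by
      have h2 : (c : ℚ) = ∑ i, (v i : ℚ) ^ 2 := by
        have := congrArg (fun z : ℤ => (z : ℚ)) hc
        push_cast at this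
        exact this
      rw [h2, Finset.sum_div]
      apply Finset.sum_congr rfl
      intro i _
      rw [hz i, div_pow]
    rw [h1, hMm]
    push_cast
    field_simp
  · rw [nrm_mul_unit B u u' huu, hA, hB]
    exact hlt

/-- **Negative answer to Q1.** Let `T` be a finite set of primes containing `2` and `R` the Hasse
domain of the rational numbers which are integral at all primes outside `T`. Then the positive
definite (hence anisotropic) form `x_1 ^ 2 + ... + x_n ^ 2` is Euclidean over `R` for every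
`n = 2 ^ j - 1`; so there are infinitely many pairwise non-isomorphic anisotropic Euclidean
quadratic forms over `R`. -/
theorem result (T : Finset ℕ) (hT : 2 ∈ T) :
    (∀ j : ℕ, 1 ≤ j → (sumSq (SInt T) (2 ^ j - 1)).Nondegenerate ∧
      (sumSq (SInt T) (2 ^ j - 1)).Anisotropic ∧ (sumSq (SInt T) (2 ^ j - 1)).Euclidean) ∧
    ∃ F : ℕ → Form (SInt T), (∀ k, 1 ≤ (F k).n ∧ (F k).Nondegenerate ∧ (F k).Anisotropic ∧
      (F k).Euclidean) ∧ ∀ k l, k ≠ l → ¬ Form.Isomorphic (F k) (F l) := by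
  have h : ∀ j : ℕ, (sumSq (SInt T) (2 ^ j - 1)).Nondegenerate ∧
      (sumSq (SInt T) (2 ^ j - 1)).Anisotropic ∧ (sumSq (SInt T) (2 ^ j - 1)).Euclidean :=
    fun j => ⟨nondegenerate_sumSq _ _, anisotropic_sumSq _ _, euclidean_sumSq hT j⟩
  refine ⟨fun j _ => h j, fun k => sumSq (SInt T) (2 ^ (k + 1) - 1), fun k => ⟨?_, h (k + 1)⟩, ?_⟩
  · change 1 ≤ 2 ^ (k + 1) - 1
    have : 2 ^ 1 ≤ 2 ^ (k + 1) := Nat.pow_le_pow_right (by norm_num) (by omega)
    omega
  · rintro k l hkl ⟨h1, -⟩
    apply hkl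
    change 2 ^ (l + 1) - 1 = 2 ^ (k + 1) - 1 at h1
    have h2 : 0 < 2 ^ (l + 1) := by positivity
    have h3 : 0 < 2 ^ (k + 1) := by positivity
    have h4 : 2 ^ (l + 1) = 2 ^ (k + 1) := by omega
    have h5 := Nat.pow_right_injective (le_refl 2) h4
    omega

end Pool.Agent.Results.MP_23f460_nt.SumsOfSquaresEuclidean
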